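import Pool.Agent.H482R3.EA.Stm

set_option autoImplicit false

namespace Pool.Agent.H320R2.EA

open Pool.Agent.H482R3.EA Pool.Agent.H482R3.EA.NF

variable {S : Sys}

theorem act_pt_pos (h : NF S) (p : S.P) (n : ℤ) (l : S.Ln) (y : S.L l) (hp : S.I p l) :
    act (.pt h p n) l y = up h l (S.x l p ^ n * y) := by
  rw [act]
  exact if_pos hp

theorem act_ln_pos (h : NF S) (l : S.Ln) (t y : S.L l) :
    act (.ln h l t) l y = up h l (t * y) := by
  rw [act]
  exact dif_pos rfl

theorem near_of_inD (s : St S) (p : S.P) (m : S.Ln) (h : InD S m s) (hp : S.I p m) :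
    Near S p s := by
  cases s with
  | none => exact h
  | ln k => cases h; exact hp
  | pt r => exact ⟨m, h, hp⟩

/-- immediate subterm satisfies P4 -/
def P4at (h : NF S) : Prop := ∀ (l : S.Ln) (y y' : S.L l), Valid h →
  ¬ InD S l (st h) → act (up h l y) l y' = up h l (y * y')

def Sub : NF S → Prop
  | .one => True
  | .pt h _ _ => P4at h
  | .ln h _ _ => P4at h

theorem A1down (h : NF S) (hs : Sub h) (m : S.Ln) (hv : Valid h) (hm : InD S m (st h))
    (z z' : S.L m) : act (act h m z) m z' = act h m (z * z') := by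
  cases h with
  | one => exact absurd hm id
  | pt h' p n =>
    have hp : S.I p m := hm
    obtain ⟨hv', -, hnear⟩ := hv
    rw [act_pt_pos _ _ _ _ _ hp, act_pt_pos _ _ _ _ _ hp,
      hs m _ _ hv' (fun hi => hnear (near_of_inD _ _ _ hi hp)), mul_assoc]
  | ln h' k t =>
    have hk : m = k := hm
    subst hk
    obtain ⟨hv', hni, -, -⟩ := hv
    rw [act_ln_pos, act_ln_pos, hs m _ _ hv' hni, mul_assoc]

open Classical in
/-- the value of `attM` in terms of the representative and the exponent -/
noncomputable def AG (f : ℤ → NF S) (q : S.P) (l : S.Ln) (t : S.L l) (a : ℤ) : NF S :=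
  if t = 1 then f a
  else if H : ∃ (s : S.P) (b c : ℤ), S.I s l ∧ s ≠ q ∧ t = S.x l q ^ b * S.x l s ^ c then
    .pt (f (a + H.choose_spec.choose)) H.choose H.choose_spec.choose_spec.choose
  else .ln (f a) l t

theorem attM_def (f : ℤ → NF S) (q : S.P) (l : S.Ln) (y : S.L l) :
    attM f q l y = AG f q l (rep S l q y) (cf S l q y) := rfl

theorem attM_shift (hR : S_REP) (f : ℤ → NF S) (q : S.P) (l : S.Ln) (hq : S.I q l) (a : ℤ)
    (y : S.L l) : attM f q l (S.x l q ^ a * y) = attM (fun b => f (a + b)) q l y := by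
  obtain ⟨-, h2, h3, -, -⟩ := hR S l q hq y
  rw [attM_def, attM_def, h2 a, h3 a]
  unfold AG
  simp only [add_assoc]

theorem P4_of_sub (hR : S_REP) (hN : S_UPN) (hM : S_UPM) (hAN : S_ACTN) (hL : S_LS)
    (h : NF S) (hs : Sub h) : P4at h := by
  classical
  intro l y y' hv hl
  by_cases hmeet : ∃ q, S.I q l ∧ Near S q (st h)
  · obtain ⟨q, hql, hqn⟩ := hmeet
    obtain ⟨m, hm, hqm⟩ : ∃ m, InD S m (st h) ∧ S.I q m := by
      revert hqn
      cases st h with
      | none => intro hqn; exact absurd hqn id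
      | ln k => intro hqn; exact ⟨k, rfl, hqn⟩
      | pt r => rintro ⟨m, hm1, hm2⟩; exact ⟨m, hm1, hm2⟩
    have hst : st h ≠ .pt q := by
      intro e
      apply hl
      rw [e]
      exact hql
    have hlm : l ≠ m := by
      rintro rfl
      exact hl hm
    set f : ℤ → NF S := fun a => act h m (S.x m q ^ a) with hf
    have hLS : ∀ a, InD S m (st (f a)) ∧ st (f a) ≠ .pt q := fun a => hL S h m q a hv hm hqm hst
    have hl' : ∀ a, ¬ InD S l (st (f a)) := by
      intro a hi
      obtain ⟨h1, h2⟩ := hLS a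
      revert hi h1 h2
      cases st (f a) with
      | none => intro h0 _ _; exact h0
      | ln k =>
        intro h0 h1 _
        have e1 : l = k := h0
        have e2 : m = k := h1
        exact hlm (e1.trans e2.symm)
      | pt s =>
        intro h0 h1 h2
        have e1 : S.I s l := h0
        have e2 : S.I s m := h1
        exact h2 (by rw [S.G1 l m s q hlm e1 hql e2 hqm])
    have hn' : ∀ a, Near S q (st (f a)) := fun a => near_of_inD _ _ _ (hLS a).1 hqm
    have P6 : ∀ a (z : S.L l), up (f a) l z = up h l (S.x l q ^ a * z) := by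
      intro a z
      rw [hM S (f a) l z q m (hl' a) hql (hn' a) (hLS a).1 hqm,
        hM S h l _ q m hl hql hqn hm hqm, attM_shift hR _ q l hql]
      congr 1
      funext b
      rw [hf]
      simp only
      rw [A1down h hs m hv hm, ← zpow_add]
    have hup : up h l y = attM f q l y := hM S h l y q m hl hql hqn hm hqm
    have hy : y = S.x l q ^ cf S l q y * rep S l q y := (hR S l q hql y).1
    rw [hup]
    rw [attM_def]
    unfold AG
    split_ifs with h1 H
    · rw [hAN S _ l y' (hl' _), P6]
      congr 1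
      conv_rhs => rw [hy, h1, mul_one]
    · have hs1 := H.choose_spec.choose_spec.choose_spec
      rw [act_pt_pos _ _ _ _ _ hs1.1, P6]
      congr 1
      conv_rhs => rw [hy, hs1.2.2]
      rw [zpow_add]
      simp only [mul_assoc]
    · rw [act_ln_pos, P6]
      congr 1
      conv_rhs => rw [hy]
      rw [mul_assoc]
  · push Not at hmeet
    rw [hN S h l y hmeet]
    unfold att
    split_ifs with h1 H
    · rw [hAN S h l y' hl, h1, one_mul]
    · have hs1 := H.choose_spec.choose_spec
      rw [act_pt_pos _ _ _ _ _ hs1.1]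
      congr 1
      conv_rhs => rw [hs1.2]
    · rw [act_ln_pos]

theorem P4_all (hR : S_REP) (hN : S_UPN) (hM : S_UPM) (hAN : S_ACTN) (hL : S_LS) :
    ∀ h : NF S, P4at h ∧ Sub h := by
  intro h
  induction h with
  | one => exact ⟨P4_of_sub hR hN hM hAN hL _ trivial, trivial⟩
  | pt h p n ih => exact ⟨P4_of_sub hR hN hM hAN hL _ ih.1, ih.1⟩
  | ln h l t ih => exact ⟨P4_of_sub hR hN hM hAN hL _ ih.1, ih.1⟩

theorem t_P4 (hR : S_REP) (hU : S_UNI) (hN : S_UPN) (hM : S_UPM) (hAN : S_ACTN) (hL : S_LS) :
    S_P4 := by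
  intro S h l y y' hv hl
  exact (P4_all hR hN hM hAN hL h).1 l y y' hv hl

end Pool.Agent.H320R2.EA
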